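import Mathlib

set_option autoImplicit false

/-!
# `ν`-regular graphs minimise the intersection number

Let `T` be a spanning tree of a connected graph `H`.  Send each chord of `T` to the two end edges of
the path of `T` that joins its ends.  Different chords have different pairs of end edges, so two
tree-cycles have at most one end edge in common.  Counting the pairs of chords with a common end
edge gives the lower bound `(n - 1) * C(q, 2) + q * r` by convexity.
-/

namespace Pool.Agent.Results.MP_648063_co.NuRegularOptimal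

open Finset

/-- The edges of `G` outside the spanning tree `T`. -/
def chords {V : Type} (G T : SimpleGraph V) : Set (Sym2 V) := G.edgeSet \ T.edgeSet

/-- The tree-cycle of the chord `e`, as a set of edges: `e` and the edges of the path of the tree `T`
between the ends of `e`. -/
def treeCycle {V : Type} (T : SimpleGraph V) (e : Sym2 V) : Set (Sym2 V) :=
  {f | f = e ∨ ∃ (u v : V) (p : T.Walk u v), p.IsPath ∧ e = s(u, v) ∧ f ∈ p.edges}

/-- The number of unordered pairs of distinct chords whose tree-cycles have a common edge. -/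
noncomputable def interPairs {V : Type} (G T : SimpleGraph V) : ℕ :=
  Set.ncard {P : Set (Sym2 V) | ∃ e ∈ chords G T, ∃ f ∈ chords G T, e ≠ f ∧ P = {e, f} ∧
    (treeCycle T e ∩ treeCycle T f).Nonempty}

/-- The intersection number: the minimum of `interPairs G T` over all spanning trees `T` of `G`. -/
noncomputable def interNumber {V : Type} (G : SimpleGraph V) : ℕ :=
  sInf {k | ∃ T : SimpleGraph V, T ≤ G ∧ T.IsTree ∧ interPairs G T = k}

/-- The cyclomatic number `m - n + 1`. -/
noncomputable def nu {V : Type} (G : SimpleGraph V) : ℕ := G.edgeSet.ncard + 1 - Nat.card V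

/-- `G` has at least two vertices, a universal vertex `u`, and the degrees of all other vertices
are `q + 1` or `q + 2`, where `q` is the quotient of `2 ν` by `n - 1`. -/
def IsNuRegular {V : Type} (G : SimpleGraph V) : Prop :=
  2 ≤ Nat.card V ∧ ∃ u : V, (∀ v, v ≠ u → G.Adj u v) ∧
    ∀ v, v ≠ u → (G.neighborSet v).ncard = 2 * nu G / (Nat.card V - 1) + 1 ∨
      (G.neighborSet v).ncard = 2 * nu G / (Nat.card V - 1) + 2

/-! ### Counting -/

theorem choose_two_ge (q d : ℕ) : (q : ℤ) * d - q * (q + 1) / 2 ≤ (d.choose 2 : ℤ) := by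
  have h1 : ((d.choose 2 : ℕ) : ℤ) * 2 = (d : ℤ) * (d - 1) := by
    have := Nat.choose_two_right d
    have h2 : 2 ∣ d * (d - 1) := (Nat.even_mul_pred_self d).two_dvd
    have h3 : d.choose 2 * 2 = d * (d - 1) := by rw [this]; exact Nat.div_mul_cancel h2
    rcases Nat.eq_zero_or_pos d with rfl | hd
    · simp
    · have : ((d - 1 : ℕ) : ℤ) = (d : ℤ) - 1 := by push_cast [Nat.cast_sub hd]; ring
      rw [← this]; exact_mod_cast h3
  have h4 : ((q : ℤ) * (q + 1) / 2) * 2 = q * (q + 1) :=
    Int.ediv_mul_cancel (Int.even_mul_succ_self q).two_dvd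
  have h5 : 0 ≤ ((d : ℤ) - q) * (d - q - 1) := by
    rcases lt_or_ge (d : ℤ) (q + 1) with h | h
    · have : (d : ℤ) - q ≤ 0 := by omega
      have : (d : ℤ) - q - 1 ≤ 0 := by omega
      nlinarith
    · have : 0 ≤ (d : ℤ) - q - 1 := by omega
      nlinarith
  nlinarith

theorem choose_two_eq (q d : ℕ) (h : d = q ∨ d = q + 1) :
    (d.choose 2 : ℤ) = (q : ℤ) * d - q * (q + 1) / 2 := by
  have h1 : ((d.choose 2 : ℕ) : ℤ) * 2 = (d : ℤ) * (d - 1) := by
    have := Nat.choose_two_right d
    have h2 : 2 ∣ d * (d - 1) := (Nat.even_mul_pred_self d).two_dvd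
    have h3 : d.choose 2 * 2 = d * (d - 1) := by rw [this]; exact Nat.div_mul_cancel h2
    rcases Nat.eq_zero_or_pos d with rfl | hd
    · simp
    · have : ((d - 1 : ℕ) : ℤ) = (d : ℤ) - 1 := by push_cast [Nat.cast_sub hd]; ring
      rw [← this]; exact_mod_cast h3
  have h4 : ((q : ℤ) * (q + 1) / 2) * 2 = q * (q + 1) :=
    Int.ediv_mul_cancel (Int.even_mul_succ_self q).two_dvd
  rcases h with rfl | rfl <;> push_cast at h1 ⊢ <;> nlinarith

/-- Sum version: if all degrees are `q` or `q + 1` the sum is minimal. -/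
theorem sum_compare {α β : Type} (A : Finset α) (B : Finset β) (f : α → ℕ) (g : β → ℕ) (q : ℕ)
    (hcard : A.card = B.card) (hsum : ∑ x ∈ A, f x = ∑ y ∈ B, g y)
    (hf : ∀ x ∈ A, f x = q ∨ f x = q + 1) :
    ∑ x ∈ A, (f x).choose 2 ≤ ∑ y ∈ B, (g y).choose 2 := by
  have h1 : ((∑ x ∈ A, (f x).choose 2 : ℕ) : ℤ) =
      (q : ℤ) * (∑ x ∈ A, f x : ℕ) - A.card * ((q : ℤ) * (q + 1) / 2) := by
    push_cast
    rw [Finset.sum_congr rfl (fun x hx => choose_two_eq q (f x) (hf x hx)),
      Finset.sum_sub_distrib, Finset.mul_sum]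
    simp
  have h2 : (q : ℤ) * (∑ y ∈ B, g y : ℕ) - B.card * ((q : ℤ) * (q + 1) / 2) ≤
      ((∑ y ∈ B, (g y).choose 2 : ℕ) : ℤ) := by
    push_cast
    refine le_trans (le_of_eq ?_) (Finset.sum_le_sum fun y _ => choose_two_ge q (g y))
    rw [Finset.sum_sub_distrib, Finset.mul_sum]
    simp
  have : ((∑ x ∈ A, (f x).choose 2 : ℕ) : ℤ) ≤ ((∑ y ∈ B, (g y).choose 2 : ℕ) : ℤ) := by
    rw [h1, hsum, hcard]; exact h2
  exact_mod_cast this

/-- The number of pairs of elements of `C` with a common label is at least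
`∑ t, C(#labelled by t, 2)` if different elements have different pairs of labels. -/
theorem count_lower {α β : Type} [DecidableEq α] [DecidableEq β] (C : Finset α) (E : Finset β)
    (a b : α → β)
    (hinj : ∀ e ∈ C, ∀ f ∈ C, e ≠ f → ({a e, b e} : Finset β) ≠ {a f, b f})
    (P : Finset (Finset α))
    (hP : ∀ e ∈ C, ∀ f ∈ C, e ≠ f → ∀ t, (t = a e ∨ t = b e) → (t = a f ∨ t = b f) →
      ({e, f} : Finset α) ∈ P) :
    ∑ t ∈ E, (C.filter fun e => t = a e ∨ t = b e).card.choose 2 ≤ P.card := by
  have hdisj : ∀ t ∈ E, ∀ t' ∈ E, t ≠ t' →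
      Disjoint (powersetCard 2 (C.filter fun e => t = a e ∨ t = b e))
        (powersetCard 2 (C.filter fun e => t' = a e ∨ t' = b e)) := by
    intro t _ t' _ htt
    rw [Finset.disjoint_left]
    intro s hs hs'
    rw [mem_powersetCard] at hs hs'
    obtain ⟨e, f, hef, rfl⟩ := card_eq_two.1 hs.2
    have he := hs.1 (show e ∈ ({e, f} : Finset α) by simp)
    have hf := hs.1 (show f ∈ ({e, f} : Finset α) by simp)
    have he' := hs'.1 (show e ∈ ({e, f} : Finset α) by simp)
    have hf' := hs'.1 (show f ∈ ({e, f} : Finset α) by simp)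
    simp only [mem_filter] at he hf he' hf'
    apply hinj e he.1 f hf.1 hef
    have key : ∀ x y : β, (t = x ∨ t = y) → (t' = x ∨ t' = y) → ({x, y} : Finset β) = {t, t'} := by
      intro x y h1 h2
      rcases h1 with rfl | rfl <;> rcases h2 with rfl | rfl
      · exact absurd rfl htt
      · rfl
      · exact Finset.pair_comm _ _
      · exact absurd rfl htt
    rw [key _ _ he.2 he'.2, key _ _ hf.2 hf'.2]
  calc ∑ t ∈ E, (C.filter fun e => t = a e ∨ t = b e).card.choose 2
      = ∑ t ∈ E, (powersetCard 2 (C.filter fun e => t = a e ∨ t = b e)).card := by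
        simp [card_powersetCard]
    _ = (E.biUnion fun t => powersetCard 2 (C.filter fun e => t = a e ∨ t = b e)).card :=
        (card_biUnion hdisj).symm
    _ ≤ P.card := by
        apply card_le_card
        intro s hs
        rw [mem_biUnion] at hs
        obtain ⟨t, _, hs⟩ := hs
        rw [mem_powersetCard] at hs
        obtain ⟨e, f, hef, rfl⟩ := card_eq_two.1 hs.2
        have he := hs.1 (show e ∈ ({e, f} : Finset α) by simp)
        have hf := hs.1 (show f ∈ ({e, f} : Finset α) by simp)
        simp only [mem_filter] at he hf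
        exact hP e he.1 f hf.1 hef t he.2 hf.2

/-- Double counting of the labels. -/
theorem sum_labels {α β : Type} [DecidableEq α] [DecidableEq β] (C : Finset α) (E : Finset β)
    (a b : α → β) (hab : ∀ e ∈ C, a e ≠ b e) (ha : ∀ e ∈ C, a e ∈ E) (hb : ∀ e ∈ C, b e ∈ E) :
    ∑ t ∈ E, (C.filter fun e => t = a e ∨ t = b e).card = 2 * C.card := by
  have h : ∀ e ∈ C, (E.filter fun t => t = a e ∨ t = b e).card = 2 := by
    intro e he
    have : (E.filter fun t => t = a e ∨ t = b e) = {a e, b e} := by
      ext t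
      simp only [mem_filter, mem_insert, mem_singleton]
      constructor
      · exact fun h => h.2
      · rintro (rfl | rfl)
        · exact ⟨ha e he, Or.inl rfl⟩
        · exact ⟨hb e he, Or.inr rfl⟩
    rw [this, card_pair (hab e he)]
  calc ∑ t ∈ E, (C.filter fun e => t = a e ∨ t = b e).card
      = ∑ e ∈ C, (E.filter fun t => t = a e ∨ t = b e).card := by
        simp only [card_filter]
        rw [sum_comm]
    _ = 2 * C.card := by rw [sum_congr rfl h]; simp [mul_comm]

/-! ### Spanning trees -/

/-- The end edges of the path of the tree between `u` and `v`. -/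
theorem exists_ends {V : Type} (T : SimpleGraph V) (hT : T.Connected) (u v : V) (hne : u ≠ v)
    (hna : ¬ T.Adj u v) : ∃ x y, T.Adj u x ∧ T.Adj v y ∧ T.dist x y + 2 = T.dist u v ∧
      s(u, x) ∈ treeCycle T s(u, v) ∧ s(v, y) ∈ treeCycle T s(u, v) := by
  obtain ⟨p, hp⟩ := (hT u v).exists_walk_length_eq_dist
  have hpath : p.IsPath := SimpleGraph.Walk.isPath_of_length_eq_dist p hp
  cases p with
  | nil => exact absurd rfl hne
  | @cons _ x _ h1 p' =>
    have hxv : x ≠ v := by rintro rfl; exact hna h1
    have hnil : ¬ p'.Nil := fun h => hxv h.eq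
    have h2 : T.Adj p'.penultimate v := p'.adj_penultimate hnil
    refine ⟨x, p'.penultimate, h1, h2.symm, ?_, ?_, ?_⟩
    · have e1 : p'.dropLast.length + 1 = p'.length := by
        have := congrArg SimpleGraph.Walk.length (p'.concat_dropLast h2)
        rw [SimpleGraph.Walk.length_concat] at this
        exact this
      have e2 : T.dist x p'.penultimate ≤ p'.dropLast.length := SimpleGraph.dist_le _
      rw [SimpleGraph.Walk.length_cons] at hp
      have e3 := hT.dist_triangle (u := u) (v := x) (w := v)
      have e4 := hT.dist_triangle (u := x) (v := p'.penultimate) (w := v)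
      have e5 : T.dist u x = 1 := SimpleGraph.dist_eq_one_iff_adj.2 h1
      have e6 : T.dist p'.penultimate v = 1 := SimpleGraph.dist_eq_one_iff_adj.2 h2
      omega
    · refine Or.inr ⟨u, v, _, hpath, rfl, ?_⟩
      simp
    · refine Or.inr ⟨u, v, _, hpath, rfl, ?_⟩
      rw [SimpleGraph.Walk.edges_cons, List.mem_cons]
      right
      have := SimpleGraph.Walk.mk_penultimate_end_mem_edges hnil
      rwa [Sym2.eq_swap] at this

/-- Chords with the same two end edges are equal. -/
theorem ends_inj {V : Type} (T : SimpleGraph V) (hT : T.Connected) (u v x y u' v' x' y' : V)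
    (h1 : T.Adj u x) (h2 : T.Adj v y) (h3 : T.dist x y + 2 = T.dist u v)
    (_h1' : T.Adj u' x') (_h2' : T.Adj v' y') (h3' : T.dist x' y' + 2 = T.dist u' v')
    (ha : s(u, x) = s(u', x')) (hb : s(v, y) = s(v', y')) : s(u, v) = s(u', v') := by
  have e1 : T.dist u x = 1 := SimpleGraph.dist_eq_one_iff_adj.2 h1
  have e2 : T.dist v y = 1 := SimpleGraph.dist_eq_one_iff_adj.2 h2
  rw [Sym2.eq_iff] at ha hb
  rcases ha with ⟨rfl, rfl⟩ | ⟨rfl, rfl⟩ <;> rcases hb with ⟨rfl, rfl⟩ | ⟨rfl, rfl⟩
  · rfl
  · exfalso
    have t1 := hT.dist_triangle (u := u) (v := x) (w := y)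
    have t2 := hT.dist_triangle (u := u) (v := x) (w := v)
    omega
  · exfalso
    have t1 := hT.dist_triangle (u := x) (v := y) (w := v)
    have t2 := hT.dist_triangle (u := u) (v := y) (w := v)
    have t3 : T.dist y v = T.dist v y := SimpleGraph.dist_comm
    omega
  · exfalso
    omega

open Classical in
/-- The intersecting pairs of chords as a finset. -/
noncomputable def pairs {V : Type} [Fintype V] (G T : SimpleGraph V) : Finset (Finset (Sym2 V)) :=
  ((G.edgeFinset \ T.edgeFinset).powerset).filter fun s =>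
    ∃ e ∈ (G.edgeFinset \ T.edgeFinset), ∃ f ∈ (G.edgeFinset \ T.edgeFinset), e ≠ f ∧ s = {e, f} ∧
      (treeCycle T e ∩ treeCycle T f).Nonempty

theorem interPairs_eq {V : Type} [Fintype V] (G T : SimpleGraph V) :
    interPairs G T = (pairs G T).card := by
  classical
  have : {P : Set (Sym2 V) | ∃ e ∈ chords G T, ∃ f ∈ chords G T, e ≠ f ∧ P = {e, f} ∧
      (treeCycle T e ∩ treeCycle T f).Nonempty} =
      (fun s : Finset (Sym2 V) => (s : Set (Sym2 V))) '' (pairs G T : Set (Finset (Sym2 V))) := by
    ext P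
    simp only [Set.mem_ofPred_eq, Set.mem_image, pairs, coe_filter, mem_powerset, chords]
    constructor
    · rintro ⟨e, he, f, hf, hef, rfl, hn⟩
      have he' : e ∈ G.edgeFinset \ T.edgeFinset := by simpa using he
      have hf' : f ∈ G.edgeFinset \ T.edgeFinset := by simpa using hf
      refine ⟨{e, f}, ⟨?_, e, he', f, hf', hef, rfl, hn⟩, by simp⟩
      intro z hz
      rw [mem_insert, mem_singleton] at hz
      rcases hz with rfl | rfl
      · exact he'
      · exact hf'
    · rintro ⟨s, ⟨_, e, he, f, hf, hef, rfl, hn⟩, rfl⟩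
      exact ⟨e, by simpa using he, f, by simpa using hf, hef, by simp, hn⟩
  rw [interPairs, this, Set.ncard_image_of_injective _ Finset.coe_injective, Set.ncard_coe_finset]

theorem card_chords {V : Type} [Fintype V] (G T : SimpleGraph V) (hle : T ≤ G) (hT : T.IsTree) :
    ∃ C : Finset (Sym2 V), (∀ e, e ∈ C ↔ e ∈ chords G T) ∧ C.card = nu G := by
  classical
  refine ⟨G.edgeFinset \ T.edgeFinset, fun e => by simp [chords], ?_⟩
  have h1 : T.edgeFinset ⊆ G.edgeFinset := SimpleGraph.edgeFinset_mono hle
  rw [card_sdiff_of_subset h1]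
  have h2 := hT.card_edgeFinset
  have h3 : G.edgeSet.ncard = G.edgeFinset.card := by
    rw [← SimpleGraph.coe_edgeFinset, Set.ncard_coe_finset]
  rw [nu, h3, Nat.card_eq_fintype_card]
  have h4 := card_le_card h1
  omega

/-- The lower bound: the spanning tree `T` of the connected graph `H` gives a system of numbers
`g t`, one for each of the `n - 1` edges of `T`, with sum `2 ν`, such that the number of
intersecting pairs is at least `∑ C(g t, 2)`. -/
theorem lower {V : Type} [Fintype V] (H T : SimpleGraph V) (hle : T ≤ H) (hT : T.IsTree) :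
    ∃ (B : Finset (Sym2 V)) (g : Sym2 V → ℕ), B.card = Nat.card V - 1 ∧
      ∑ t ∈ B, g t = 2 * nu H ∧ ∑ t ∈ B, (g t).choose 2 ≤ interPairs H T := by
  classical
  obtain ⟨C, hC, hCcard⟩ := card_chords H T hle hT
  have hch : ∀ e : Sym2 V, ∃ u v x y : V, e ∈ C → (e = s(u, v) ∧ T.Adj u x ∧ T.Adj v y ∧
      T.dist x y + 2 = T.dist u v ∧ s(u, x) ∈ treeCycle T e ∧ s(v, y) ∈ treeCycle T e) := by
    intro e
    by_cases he : e ∈ C
    · induction e using Sym2.ind with
      | _ u v =>
        have h1 := (hC _).1 he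
        have hHadj : H.Adj u v := h1.1
        have hTadj : ¬ T.Adj u v := h1.2
        obtain ⟨x, y, hx⟩ := exists_ends T hT.connected u v hHadj.ne hTadj
        exact ⟨u, v, x, y, fun _ => ⟨rfl, hx.1, hx.2.1, hx.2.2.1, hx.2.2.2.1, hx.2.2.2.2⟩⟩
    · induction e using Sym2.ind with
      | _ u v => exact ⟨u, u, u, u, fun h => absurd h he⟩
  choose u v x y hh using hch
  set a : Sym2 V → Sym2 V := fun e => s(u e, x e) with ha
  set b : Sym2 V → Sym2 V := fun e => s(v e, y e) with hb
  have hab : ∀ e ∈ C, a e ≠ b e := by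
    intro e he hab
    obtain ⟨h0, h1, h2, h3, -, -⟩ := hh e he
    simp only [ha, hb, Sym2.eq_iff] at hab
    rcases hab with ⟨h4, h5⟩ | ⟨h4, h5⟩
    · rw [h4, h5] at h3
      simp at h3
    · rw [h4, h5, SimpleGraph.dist_comm] at h3
      omega
  have hconn := hT.connected
  have hinj : ∀ e ∈ C, ∀ f ∈ C, e ≠ f → ({a e, b e} : Finset (Sym2 V)) ≠ {a f, b f} := by
    intro e he f hf hef heq
    obtain ⟨h0, h1, h2, h3, -, -⟩ := hh e he
    obtain ⟨h0', h1', h2', h3', -, -⟩ := hh f hf
    have m1 : a e ∈ ({a f, b f} : Finset (Sym2 V)) := by rw [← heq]; simp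
    have m2 : b e ∈ ({a f, b f} : Finset (Sym2 V)) := by rw [← heq]; simp
    rw [mem_insert, mem_singleton] at m1 m2
    rcases m1 with m1 | m1 <;> rcases m2 with m2 | m2
    · exact hab e he (m1.trans m2.symm)
    · apply hef
      rw [h0, h0']
      exact ends_inj T hconn _ _ _ _ _ _ _ _ h1 h2 h3 h1' h2' h3' m1 m2
    · apply hef
      rw [h0, h0', Sym2.eq_swap (a := u f)]
      refine ends_inj T hconn _ _ _ _ _ _ _ _ h1 h2 h3 h2' h1' ?_ m1 m2
      rw [SimpleGraph.dist_comm, h3', SimpleGraph.dist_comm]
    · exact hab e he (m1.trans m2.symm)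
  refine ⟨T.edgeFinset, fun t => (C.filter fun e => t = a e ∨ t = b e).card, ?_, ?_, ?_⟩
  · have := hT.card_edgeFinset
    rw [Nat.card_eq_fintype_card]
    omega
  · rw [sum_labels C T.edgeFinset a b hab, hCcard]
    · intro e he
      have := (hh e he).2.1
      simpa [ha] using this
    · intro e he
      have := (hh e he).2.2.1
      simpa [hb] using this
  · rw [interPairs_eq]
    refine count_lower C T.edgeFinset a b hinj (pairs H T) ?_
    intro e he f hf hef t hte htf
    have hCe : ∀ z, z ∈ C ↔ z ∈ H.edgeFinset \ T.edgeFinset := fun z => by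
      rw [hC z]; simp [chords]
    rw [pairs, mem_filter, mem_powerset]
    refine ⟨?_, e, (hCe e).1 he, f, (hCe f).1 hf, hef, rfl, t, ?_, ?_⟩
    · intro z hz
      rw [mem_insert, mem_singleton] at hz
      rcases hz with rfl | rfl
      · exact (hCe _).1 he
      · exact (hCe _).1 hf
    · obtain ⟨-, -, -, -, h5, h6⟩ := hh e he
      rcases hte with rfl | rfl
      · exact h5
      · exact h6
    · obtain ⟨-, -, -, -, h5, h6⟩ := hh f hf
      rcases htf with rfl | rfl
      · exact h5
      · exact h6

/-- The tree-cycles of the star. -/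
theorem treeCycle_star {V : Type} (c : V) {e f : Sym2 V} (h : f ∈ treeCycle (SimpleGraph.starGraph c) e)
    (he : c ∉ e) : f = e ∨ ∃ v ∈ e, v ≠ c ∧ f = s(v, c) := by
  rcases h with h | ⟨u, v, p, hp, rfl, hf⟩
  · exact Or.inl h
  · right
    have huc : u ≠ c := by rintro rfl; exact he (by simp)
    have hvc : v ≠ c := by rintro rfl; exact he (by simp)
    by_cases huv : u = v
    · subst huv
      have : p = SimpleGraph.Walk.nil := by
        have := ((SimpleGraph.isAcyclic_starGraph c).subsingleton_path u u).elim ⟨p, hp⟩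
          ⟨SimpleGraph.Walk.nil, SimpleGraph.Walk.IsPath.nil⟩
        exact congrArg Subtype.val this
      rw [this] at hf
      simp at hf
    · have h1 : (SimpleGraph.starGraph c).Adj u c := SimpleGraph.starGraph_center_adj' huc.symm
      have h2 : (SimpleGraph.starGraph c).Adj c v := SimpleGraph.starGraph_center_adj hvc.symm
      have hq : (SimpleGraph.Walk.cons h1 (SimpleGraph.Walk.cons h2 SimpleGraph.Walk.nil)).IsPath := by
        rw [SimpleGraph.Walk.isPath_def]
        simp [huc, huv, hvc.symm]
      have : p = SimpleGraph.Walk.cons h1 (SimpleGraph.Walk.cons h2 SimpleGraph.Walk.nil) := by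
        have := ((SimpleGraph.isAcyclic_starGraph c).subsingleton_path u v).elim ⟨p, hp⟩ ⟨_, hq⟩
        exact congrArg Subtype.val this
      rw [this] at hf
      simp only [SimpleGraph.Walk.edges_cons, SimpleGraph.Walk.edges_nil, List.mem_cons,
        List.not_mem_nil, or_false] at hf
      rcases hf with rfl | rfl
      · exact ⟨u, by simp, huc, rfl⟩
      · exact ⟨v, by simp, hvc, Sym2.eq_swap⟩

theorem mem_pairs {V : Type} [Fintype V] (G T : SimpleGraph V) (s : Finset (Sym2 V))
    (h : s ∈ pairs G T) : ∃ e ∈ chords G T, ∃ f ∈ chords G T, e ≠ f ∧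
      (∀ z, z ∈ s ↔ z = e ∨ z = f) ∧ (treeCycle T e ∩ treeCycle T f).Nonempty := by
  classical
  rw [pairs, mem_filter] at h
  obtain ⟨-, e, he, f, hf, hef, rfl, h⟩ := h
  exact ⟨e, by simpa [chords] using he, f, by simpa [chords] using hf, hef, fun z => by simp, h⟩

open Classical in
/-- The upper bound for a graph with the universal vertex `c`. -/
theorem upper {V : Type} [Fintype V] (G : SimpleGraph V) (c : V)
    (hc : ∀ v, v ≠ c → G.Adj c v) : ∃ f : V → ℕ, (∀ v, v ≠ c → f v + 1 = (G.neighborSet v).ncard) ∧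
      ∑ v ∈ univ.erase c, f v = 2 * nu G ∧
      interPairs G (SimpleGraph.starGraph c) ≤ ∑ v ∈ univ.erase c, (f v).choose 2 := by
  classical
  have hle : SimpleGraph.starGraph c ≤ G := by
    intro x y hxy
    rw [SimpleGraph.starGraph_adj] at hxy
    obtain ⟨hne, rfl | rfl⟩ := hxy
    · exact hc y hne.symm
    · exact (hc x hne).symm
  obtain ⟨C, hC, hCcard⟩ := card_chords G _ hle (SimpleGraph.isTree_starGraph c)
  have hCc : ∀ e ∈ C, c ∉ e := by
    intro e he hce
    have h1 := (hC e).1 he
    induction e using Sym2.ind with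
    | _ x y =>
      have hG : G.Adj x y := h1.1
      apply h1.2
      rw [SimpleGraph.mem_edgeSet, SimpleGraph.starGraph_adj]
      refine ⟨hG.ne, ?_⟩
      rw [Sym2.mem_iff] at hce
      rcases hce with rfl | rfl
      · exact Or.inl rfl
      · exact Or.inr rfl
  refine ⟨fun v => (C.filter fun e => v ∈ e).card, ?_, ?_, ?_⟩
  · intro v hv
    have hmem : ∀ w, w ∈ (G.neighborSet v) ↔ w = c ∨ (w ≠ c ∧ G.Adj v w) := by
      intro w
      rw [SimpleGraph.mem_neighborSet]
      by_cases hw : w = c
      · subst hw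
        simp [(hc v hv).symm]
      · simp [hw]
    have h1 : (C.filter fun e => v ∈ e).card = ((univ.filter fun w => w ≠ c ∧ G.Adj v w)).card := by
      symm
      refine card_bij (fun w _ => s(v, w)) ?_ ?_ ?_
      · intro w hw
        rw [mem_filter] at hw ⊢
        refine ⟨(hC _).2 ⟨hw.2.2, ?_⟩, by simp⟩
        rw [SimpleGraph.mem_edgeSet, SimpleGraph.starGraph_adj]
        rintro ⟨-, h | h⟩
        · exact hv h
        · exact hw.2.1 h
      · intro w _ w' _ h
        rw [Sym2.eq_iff] at h
        rcases h with ⟨-, h⟩ | ⟨h1, h2⟩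
        · exact h
        · rw [h2, ← h1]
      · intro e he
        rw [mem_filter] at he
        obtain ⟨w, rfl⟩ := he.2
        refine ⟨w, ?_, rfl⟩
        rw [mem_filter]
        refine ⟨mem_univ _, ?_, ((hC _).1 he.1).1⟩
        rintro rfl
        exact hCc _ he.1 (by simp)
    beta_reduce
    rw [h1]
    have h2 : G.neighborSet v = ↑(insert c (univ.filter fun w => w ≠ c ∧ G.Adj v w)) := by
      ext w
      rw [hmem w]
      simp
    rw [h2, Set.ncard_coe_finset, card_insert_of_notMem (by simp)]
  · have h : ∀ e ∈ C, ((univ.erase c).filter fun v => v ∈ e).card = 2 := by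
      intro e he
      have hce := hCc e he
      have hG := ((hC e).1 he).1
      induction e using Sym2.ind with
      | _ x y =>
        have : ((univ.erase c).filter fun v => v ∈ s(x, y)) = {x, y} := by
          ext v
          simp only [mem_filter, mem_erase, mem_univ, and_true, Sym2.mem_iff, mem_insert,
            mem_singleton]
          constructor
          · exact fun h => h.2
          · rintro (rfl | rfl)
            · exact ⟨fun h => hce (by simp [h]), Or.inl rfl⟩
            · exact ⟨fun h => hce (by simp [h]), Or.inr rfl⟩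
        have hxy : G.Adj x y := hG
        rw [this, card_pair hxy.ne]
    calc ∑ v ∈ univ.erase c, (C.filter fun e => v ∈ e).card
        = ∑ e ∈ C, ((univ.erase c).filter fun v => v ∈ e).card := by
          simp only [card_filter]
          rw [sum_comm]
      _ = 2 * nu G := by rw [sum_congr rfl h, ← hCcard]; simp [mul_comm]
  · rw [interPairs_eq]
    have hsub : pairs G (SimpleGraph.starGraph c) ⊆
        (univ.erase c).biUnion fun v => powersetCard 2 (C.filter fun e => v ∈ e) := by
      intro s hs
      obtain ⟨e, he, f, hf, hef, hs, t, hte, htf⟩ := mem_pairs _ _ _ hs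
      have he' := (hC e).2 he
      have hf' := (hC f).2 hf
      have hcommon : ∃ v, v ≠ c ∧ v ∈ e ∧ v ∈ f := by
        rcases treeCycle_star c hte (hCc e he') with rfl | ⟨v, hve, hvc, rfl⟩
        · rcases treeCycle_star c htf (hCc f hf') with h | ⟨w, -, -, h⟩
          · exact absurd h hef
          · exact absurd (by rw [h]; simp) (hCc _ he')
        · rcases treeCycle_star c htf (hCc f hf') with h | ⟨w, hwf, hwc, h⟩
          · exact absurd (by rw [← h]; simp) (hCc _ hf')
          · rw [Sym2.eq_iff] at h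
            rcases h with ⟨rfl, -⟩ | ⟨h1, h2⟩
            · exact ⟨v, hvc, hve, hwf⟩
            · exact absurd h1 hvc
      obtain ⟨v, hvc, hve, hvf⟩ := hcommon
      have hs2 : s = {e, f} := by
        ext z
        rw [hs z]
        simp
      rw [mem_biUnion]
      refine ⟨v, by simp [hvc], ?_⟩
      rw [mem_powersetCard, hs2]
      refine ⟨?_, card_pair hef⟩
      intro z hz
      rw [mem_insert, mem_singleton] at hz
      rcases hz with rfl | rfl
      · exact mem_filter.2 ⟨he', hve⟩
      · exact mem_filter.2 ⟨hf', hvf⟩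
    refine (card_le_card hsub).trans (card_biUnion_le.trans ?_)
    simp [card_powersetCard]

/-- If `G` is `ν`-regular and `H` is connected with the same numbers of vertices and edges, then
the intersection number of `G` is at most the intersection number of `H`. -/
theorem result : ∀ (V W : Type) [Finite V] [Finite W] (G : SimpleGraph V) (H : SimpleGraph W),
    IsNuRegular G → H.Connected → Nat.card W = Nat.card V →
    H.edgeSet.ncard = G.edgeSet.ncard → interNumber G ≤ interNumber H := by
  classical
  intro V W _ _ G H hG hH hcard hedge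
  have := Fintype.ofFinite V
  have := Fintype.ofFinite W
  obtain ⟨h2, c, hc, hdeg⟩ := hG
  have hle : SimpleGraph.starGraph c ≤ G := by
    intro x y hxy
    rw [SimpleGraph.starGraph_adj] at hxy
    obtain ⟨hne, rfl | rfl⟩ := hxy
    · exact hc y hne.symm
    · exact (hc x hne).symm
  obtain ⟨f, hf1, hf2, hf3⟩ := upper G c hc
  have hne : {k | ∃ T : SimpleGraph W, T ≤ H ∧ T.IsTree ∧ interPairs H T = k}.Nonempty := by
    obtain ⟨T, hT1, hT2⟩ := hH.exists_isTree_le
    exact ⟨_, T, hT1, hT2, rfl⟩
  obtain ⟨T, hT1, hT2, hT3⟩ := Nat.sInf_mem hne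
  obtain ⟨B, g, hB1, hB2, hB3⟩ := lower H T hT1 hT2
  have hnu : nu H = nu G := by rw [nu, nu, hcard, hedge]
  calc interNumber G ≤ interPairs G (SimpleGraph.starGraph c) :=
        Nat.sInf_le ⟨_, hle, SimpleGraph.isTree_starGraph c, rfl⟩
    _ ≤ ∑ v ∈ univ.erase c, (f v).choose 2 := hf3
    _ ≤ ∑ t ∈ B, (g t).choose 2 := by
        refine sum_compare _ _ f g (2 * nu G / (Nat.card V - 1)) ?_ ?_ ?_
        · rw [hB1, hcard, card_erase_of_mem (mem_univ c), Nat.card_eq_fintype_card, card_univ]
        · rw [hf2, hB2, hnu]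
        · intro v hv
          have hvc : v ≠ c := (mem_erase.1 hv).1
          have h1 := hf1 v hvc
          rcases hdeg v hvc with h | h <;> omega
    _ ≤ interPairs H T := hB3
    _ = interNumber H := hT3

end Pool.Agent.Results.MP_648063_co.NuRegularOptimal
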